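import Pool.Agent.H87.Transfer

/-!
# Non-trivial standard forms with `a = 0`

For every `g ≥ 9` there is a tau-symmetric deformation of the Riemann hierarchy in standard form
with `a = 0` and non-zero coefficient at `u_2 ^ g`.
-/

noncomputable section

namespace Pool.Agent.Results.MP_34ac72_mp.StandardFormCounterexample

open Finset Pool.Agent.H87 Pool.Agent.H87.RH

theorem Psi_G0 (d : ℕ) : Psi (G0 d) = const ((d + 1).factorial : ℂ)⁻¹ * jet 0 ^ (d + 1) := by
  rw [G0, map_smul, Psi_pow (u_mem_AN _ 0), Psi_u, smul_eq_const]

theorem coef_lift (f : DP) (k : ℕ) : coef k (lift f) = if k = 0 then f else 0 := by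
  rw [coef, lift, PowerSeries.coeff_C]

theorem coef_zero (k : ℕ) : coef k 0 = 0 := by
  rw [coef, map_zero]

theorem dx_G0' (d : ℕ) : dx (G0 d) = (d.factorial : ℂ)⁻¹ • (u 0 ^ d * u 1) := by
  rw [G0, Derivation.map_smul, Derivation.leibniz_pow, dx_u]
  simp only [Nat.add_sub_cancel, smul_eq_mul, zero_add]
  rw [← Nat.cast_smul_eq_nsmul ℂ, smul_smul]
  congr 1
  rw [Nat.factorial_succ d]
  push_cast
  have h1 : ((d : ℂ) + 1) ≠ 0 := by exact_mod_cast d.succ_ne_zero
  have h2 : ((d.factorial : ℕ) : ℂ) ≠ 0 := by exact_mod_cast d.factorial_ne_zero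
  field_simp

theorem Ser_zero (N : ℕ) : Ser N (fun _ => 0) = 0 := by
  refine DE_ext fun k => ?_
  rw [coeff_Ser, map_zero, ite_self, coef_zero]

theorem eul_u_zero : eul (u 0) = 1 := by
  rw [eul_eq (u 0) (M := 1) (fun i hi => by rw [pd_u, if_neg (by omega)])]
  simp [pd_u]

theorem result (g : ℕ) (hg : 9 ≤ g) :
    ∃ (h : ℕ → DE) (A : (k : ℕ) → k.Partition → ℂ),
      TauSymmetric h ∧ IsStandardForm h 0 A ∧
      (∀ k, k < 2 * g → ∀ lam : k.Partition, A k lam = 0) ∧ A (2 * g) (twos g) ≠ 0 := by
  classical
  obtain ⟨F, hF0, hFz, hFA, hFB, hFe, hFb, s, r, hs, hsB, hr, hsr, hs1⟩ := main hg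
  have hN : 0 < 2 * g := by omega
  set N := 2 * g with hNdef
  have hNz : ((N : ℕ) : ℤ) = 2 * g := by rw [hNdef]; push_cast; ring
  set h : ℕ → DE := fun d => Ser N (F d) with hh
  set A : (k : ℕ) → k.Partition → ℂ := fun k lam =>
    if N ∣ k ∧ 1 ≤ k / N ∧ Admissible lam then (s (k / N)).coeff (exm lam.parts) else 0 with hA
  -- basic facts
  have hEA : ∀ d n, eul (F d n) ∈ AN ∅ := fun d n => AN_eul (hFA d n)
  have hflow : ∀ d, hamFlow (h d) = Ser N (fun n => dx (eul (F d n))) := by
    intro d
    rw [hamFlow, hh, varderE_Ser (hFA d), totalE_Ser (hEA d)]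
  have hflow' : ∀ d, hamFlow (h (d + 1)) = Ser N (fun n => dx (F d n)) := by
    intro d
    rw [hflow]
    simp_rw [hFe]
  have hsym : ∀ p q n, ∑ x ∈ antidiagonal n, evo (dx (F q x.1)) (F p x.2) =
      ∑ x ∈ antidiagonal n, evo (dx (F p x.1)) (F q x.2) := by
    intro p q n
    have h1 := hFb p q n
    simp only [brk] at h1
    rw [Finset.sum_sub_distrib, sub_eq_zero] at h1
    rw [← Finset.Nat.sum_antidiagonal_swap (f := fun x => evo (dx (F q x.1)) (F p x.2))]
    exact h1
  have hdxA : ∀ d n, dx (F d n) ∈ AN ∅ := fun d n => AN_dx (hFA d n)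
  have hz0 : ∀ n, F 0 n = if n = 0 then u 0 else 0 := by
    intro n
    split_ifs with hn
    · rw [hn, hF0, G0_zero]
    · exact hFz n (by omega)
  have hz0e : ∀ n, eul (F 0 n) = if n = 0 then 1 else 0 := by
    intro n
    rw [hz0]
    split_ifs with hn
    · exact eul_u_zero
    · exact eul_zero
  have hflow0 : ∀ n, dx (eul (F 0 n)) = 0 := by
    intro n
    rw [hz0e]
    split_ifs <;> simp
  refine ⟨h, A, ?_, ?_, ?_, ?_⟩
  · refine ⟨?_, ?_, ?_, ?_, ?_, ?_, ?_, ?_, ?_, ?_⟩
    · -- start
      refine DE_ext fun k => ?_
      rw [hh]
      simp only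
      rw [coeff_Ser, coef_lift]
      by_cases hk : k = 0
      · subst hk
        rw [if_pos (dvd_zero _), if_pos rfl, Nat.zero_div, hz0, if_pos rfl, Psi_u]
      · rw [if_neg hk]
        split_ifs with hd
        · have : k / N ≠ 0 := by
            have := Nat.div_pos (Nat.le_of_dvd (by omega) hd) hN
            omega
          rw [hz0, if_neg this, map_zero]
        · rfl
    · -- degree
      intro d k
      rw [hh]
      simp only
      rw [coeff_Ser]
      split_ifs with hd
      · obtain ⟨n, rfl⟩ := hd
        rw [Nat.mul_div_cancel_left _ hN]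
        apply Psi_hom (hFA d n) (BH_cast (hFB d n) _ rfl)
        push_cast
        rw [hNz]; ring
      · exact MvPolynomial.isWeightedHomogeneous_zero _ _ _
    · -- leading
      intro d
      rw [hh]
      simp only
      rw [coeff_Ser, if_pos (dvd_zero _), Nat.zero_div, hF0, Psi_G0]
    · -- flow degree
      intro d k
      rw [hflow', coeff_Ser]
      split_ifs with hd
      · obtain ⟨n, rfl⟩ := hd
        rw [Nat.mul_div_cancel_left _ hN]
        apply Psi_hom (hdxA d n) (BH_cast (BH_dx (hFB d n)) _ rfl)
        push_cast
        rw [hNz]; ring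
      · exact MvPolynomial.isWeightedHomogeneous_zero _ _ _
    · -- flow leading
      intro d
      rw [hflow', coeff_Ser, if_pos (dvd_zero _), Nat.zero_div, hF0, dx_G0', map_smul,
        Psi_mul ((AN ∅).pow_mem (u_mem_AN _ 0) _) (u_mem_AN _ 1), Psi_pow (u_mem_AN _ 0), Psi_u,
        Psi_u, smul_eq_const, mul_assoc]
    · -- commuting flows
      intro p q
      rw [hflow', hflow', evolE_Ser hN (hdxA p) (hdxA q), evolE_Ser hN (hdxA q) (hdxA p)]
      refine congrArg (Ser N) (funext fun n => ?_)
      simp_rw [evo_dx]
      rw [← map_sum, ← map_sum, hsym]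
    · -- involution
      intro p q
      have key : ∀ n, ∃ R ∈ AN ∅, ∑ x ∈ antidiagonal n, eul (F p x.1) * dx (eul (F q x.2)) =
          dx R := by
        intro n
        cases q with
        | zero =>
          refine ⟨0, (AN ∅).zero_mem, ?_⟩
          rw [map_zero]
          apply Finset.sum_eq_zero
          intro x _
          rw [hflow0, mul_zero]
        | succ q =>
          cases p with
          | zero =>
            refine ⟨eul (F (q + 1) n), hEA _ _, ?_⟩
            rw [Finset.sum_eq_single (0, n)]
            · rw [hz0e, if_pos rfl, one_mul]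
            · intro x hx hne
              rw [HasAntidiagonal.mem_antidiagonal] at hx
              have hx1 : x.1 ≠ 0 := by
                intro h0
                apply hne
                rw [h0, zero_add] at hx
                exact Prod.ext h0 hx
              rw [hz0e, if_neg hx1, zero_mul]
            · intro h'
              exact absurd (HasAntidiagonal.mem_antidiagonal.mpr (zero_add n)) h'
          | succ p =>
            have hB : ∑ x ∈ antidiagonal n, eul (F (p + 1) x.1) * dx (eul (F (q + 1) x.2)) ∈
                BH (n * (2 * g) + 1) (n * (g - 3) + p + q + 2) := by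
              apply Submodule.sum_mem
              intro x hx
              rw [HasAntidiagonal.mem_antidiagonal] at hx
              rw [hFe, hFe]
              refine BH_cast (BH_mul (hFB p x.1) (BH_dx (hFB q x.2))) ?_ ?_
              · rw [← hx]; push_cast; ring
              · rw [← hx]; push_cast; ring
            have hAA : ∑ x ∈ antidiagonal n, eul (F (p + 1) x.1) * dx (eul (F (q + 1) x.2)) ∈
                AN ∅ :=
              (AN ∅).sum_mem (fun x _ => (AN ∅).mul_mem (hEA _ _) (AN_dx (hEA _ _)))
            have he : eul (∑ x ∈ antidiagonal n,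
                eul (F (p + 1) x.1) * dx (eul (F (q + 1) x.2))) = 0 := by
              rw [eul_sum]
              simp_rw [← brk_eul, hFe]
              exact hFb p q n
            have hl : ((n : ℤ) * (g - 3) + p + q + 2) ≠ 0 := by
              have : (0 : ℤ) ≤ (n : ℤ) * (g - 3) := mul_nonneg (by positivity) (by omega)
              positivity
            exact exact hl hB hAA he
      intro k
      rw [hflow, hh]
      simp only
      rw [varderE_Ser (hFA p), mul_Ser hN (hEA p) (fun n => AN_dx (hEA q n)), coeff_Ser, coef_zero]
      split_ifs with hd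
      · obtain ⟨R, hR, hRd⟩ := key (k / N)
        refine ⟨Psi R, 0, ?_⟩
        rw [hRd, total_Psi hR, const_zero]
        simp
      · refine ⟨0, 0, ?_⟩
        rw [total_zero, const_zero]
        simp
    · -- tau symmetry
      intro p q
      rw [bracketE, bracketE, hflow', hflow', hh]
      simp only
      rw [evolE_Ser hN (hdxA q) (hFA p), evolE_Ser hN (hdxA p) (hFA q)]
      exact congrArg (Ser N) (funext fun n => hsym p q n)
    · -- translation
      rw [bracketE, hflow', hh]
      simp only
      rw [evolE_Ser hN (hdxA 0) (hFA 0)]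
      refine DE_ext fun k => ?_
      rw [coeff_Ser, coef_lift]
      by_cases hk : k = 0
      · subst hk
        rw [if_pos (dvd_zero _), if_pos rfl, Nat.zero_div]
        simp [hz0, Psi_u]
      · rw [if_neg hk]
        split_ifs with hd
        · have hpos : k / N ≠ 0 := by
            have := Nat.div_pos (Nat.le_of_dvd (by omega) hd) hN
            omega
          rw [Finset.sum_eq_zero, map_zero]
          intro x hx
          rw [HasAntidiagonal.mem_antidiagonal] at hx
          by_cases hx1 : x.1 = 0
          · have hx2 : x.2 ≠ 0 := by omega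
            rw [hz0 x.2, if_neg hx2, map_zero]
          · rw [hz0 x.1, if_neg hx1, map_zero, evo_zero]
        · rfl
    · -- casimir
      rw [bracketE, hflow, hh]
      simp only
      rw [evolE_Ser hN (fun n => AN_dx (hEA 0 n)) (hFA 0), ← Ser_zero N]
      refine congrArg (Ser N) (funext fun n => ?_)
      apply Finset.sum_eq_zero
      intro x _
      rw [hflow0, evo_zero]
  · refine ⟨?_, ?_⟩
    · intro k
      rw [hh]
      simp only
      rw [coeff_Ser, coef_mk, standardCoef]
      have ha : (if k = 2 then const 0 * jet 1 ^ 2 else 0) = 0 := by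
        rw [const_zero]; split_ifs <;> simp
      rw [ha, add_zero]
      by_cases hk : k = 0
      · subst hk
        refine ⟨0, 0, ?_⟩
        rw [if_pos (dvd_zero _), if_pos rfl, Nat.zero_div, hF0, Psi_G0, total_zero]
        have hA0 : ∀ lam : (0 : ℕ).Partition, A 0 lam = 0 := by
          intro lam
          simp only [hA]
          rw [if_neg]
          rintro ⟨_, h1, _⟩
          simp at h1
        simp only [hA0, const_zero, zero_mul, ite_self, Finset.sum_const_zero]
        have : ((2 + 1).factorial : ℂ) = 6 := by
          norm_num [Nat.factorial]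
        rw [this]
        simp
      · rw [if_neg hk]
        split_ifs with hd
        · have hpos : 1 ≤ k / N := Nat.div_pos (Nat.le_of_dvd (by omega) hd) hN
          refine ⟨Psi (r (k / N)), 0, ?_⟩
          have hkk : (((k / N : ℕ) : ℤ) * (2 * g)) = (k : ℤ) := by
            obtain ⟨n, rfl⟩ := hd
            rw [Nat.mul_div_cancel_left _ hN]
            push_cast
            rw [hNz]; ring
          have hB := BH_cast (hsB (k / N) hpos) hkk rfl
          rw [hsr (k / N) hpos, map_add, total_Psi (hr _ hpos), Psi_expand (hs _ hpos) hB]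
          have : ∀ lam : k.Partition, (if Admissible lam then
              const ((s (k / N)).coeff (exm lam.parts)) * jetMonomial lam else 0) =
              (if Admissible lam then const (A k lam) * jetMonomial lam else 0) := by
            intro lam
            by_cases hl : Admissible lam
            · rw [if_pos hl, if_pos hl]
              simp only [hA]
              rw [if_pos ⟨hd, hpos, hl⟩]
            · rw [if_neg hl, if_neg hl]
          simp_rw [this]
          rw [const_zero]
          simp
        · refine ⟨0, 0, ?_⟩
          have hA0 : ∀ lam : k.Partition, A k lam = 0 := by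
            intro lam
            simp only [hA]
            rw [if_neg]
            rintro ⟨h1, _⟩
            exact hd h1
          simp only [hA0, const_zero, zero_mul, ite_self, Finset.sum_const_zero, total_zero]
          simp
    · intro k lam hlam
      simp only [hA]
      rw [if_neg]
      rintro ⟨h1, _, h3⟩
      rcases hlam with hlam | hlam
      · exact hlam h3
      · obtain ⟨n, rfl⟩ := h1
        rw [hNdef, mul_assoc] at hlam
        exact (Nat.not_even_iff_odd.mpr hlam) (even_two_mul _)
  · intro k hk lam
    simp only [hA]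
    rw [if_neg]
    rintro ⟨_, h1, _⟩
    rw [Nat.div_eq_of_lt hk] at h1
    omega
  · simp only [hA]
    have hadm : Admissible (twos g) := by
      refine ⟨?_, 2, ?_, ?_⟩
      · intro i hi
        rw [twos] at hi
        rw [Multiset.eq_of_mem_replicate hi]
      · rw [twos]
        simp only
        rw [Multiset.count_replicate_self]
        omega
      · intro i hi
        rw [twos] at hi
        rw [Multiset.eq_of_mem_replicate hi]
    rw [if_pos ⟨dvd_refl _, by rw [Nat.div_self hN], hadm⟩, Nat.div_self hN, hs1]
    have hupow : ∀ n : ℕ, u 2 ^ n = mono (exm (Multiset.replicate n 2)) := by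
      intro n
      induction n with
      | zero => simp [exm, mono_zero]
      | succ n ih =>
        rw [pow_succ', ih, u, mono_mul, exm, exm, Multiset.replicate_succ, Multiset.map_cons,
          Multiset.sum_cons]
    rw [hupow, AddMonoidAlgebra.coeff_smul, Finsupp.smul_apply, coeff_mono, twos]
    simp only [if_true, smul_eq_mul, mul_one]
    have h1 : ((3 * g - 2 : ℤ) : ℂ) ≠ 0 := by
      rw [Int.cast_ne_zero]; omega
    push_cast at h1
    exact neg_ne_zero.mpr h1

end Pool.Agent.Results.MP_34ac72_mp.StandardFormCounterexample
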